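import Pool.Agent.P.MP_eb267f_nt.Nine

/-!
Whiteman pairs are exactly the simultaneous primes `(W a - 1) / 3`, `W a + 1` along the cubic
iteration `W 0 = 4`, `W (a+1) = W a ^ 3 - 3 * W a`.
-/

namespace Pool.Agent.Results.MP_eb267f_nt.CubicReduction

open Pool.Agent.P.MP_eb267f_nt

theorem tower_mono {a b : ℕ} (h : a ≤ b) : 3 ^ 3 ^ a ≤ 3 ^ 3 ^ b :=
  Nat.pow_le_pow_right (by norm_num) (Nat.pow_le_pow_right (by norm_num) h)

theorem noq {p a r : ℕ} (h : (3 * p + 1 : ℤ) = W a) (ha : 3 ≤ a) (hr : 2 ≤ r)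
    (hlt : r ≤ 3 ^ 3 ^ 3) (hm : (Wm r a + 1) % r = 0) : ¬ (3 * p + 2).Prime :=
  not_pair_q h hr (hlt.trans (tower_mono ha)) hm

theorem nop {p a r : ℕ} (h : (3 * p + 1 : ℤ) = W a) (ha : 4 ≤ a) (hr : 2 ≤ r)
    (hlt : 3 * r < 3 ^ 3 ^ 4) (h3r : Nat.Coprime r 3) (hm : Wm r a = 1) : ¬ p.Prime :=
  not_pair_p h hr (hlt.trans_le (tower_mono ha)) h3r hm

theorem tower_le {p a : ℕ} (h : (3 * p + 1 : ℤ) = W a) : 3 ^ 3 ^ a ≤ 3 * p := by
  have h1 := W_ge a
  rw [← h] at h1
  have : ((3 ^ 3 ^ a : ℕ) : ℤ) ≤ ((3 * p : ℕ) : ℤ) := by push_cast; linarith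
  exact_mod_cast this

theorem small {p a : ℕ} (hp : p.Prime) (hq : (3 * p + 2).Prime) (ha : 1 ≤ a)
    (h : (3 * p + 1 : ℤ) = W a) : p = 17 ∨ p = 46817 ∨ 18 ≤ a := by
  rcases Nat.lt_or_ge a 18 with hlt | hge
  swap
  · exact Or.inr (Or.inr hge)
  interval_cases a
  · left
    simp only [W] at h
    omega
  · right; left
    simp only [W] at h
    omega
  · exact absurd hq (noq (r := 6317) h (by norm_num) (by norm_num) (by norm_num) (by decide +kernel))
  · exact absurd hp (nop (r := 9721) h (by norm_num) (by norm_num) (by norm_num) (by norm_num)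
      (by decide +kernel))
  · exact absurd hp (nop (r := 1911917681) h (by norm_num) (by norm_num) (by norm_num)
      (by norm_num) (by decide +kernel))
  · exact absurd hq (noq (r := 4373) h (by norm_num) (by norm_num) (by norm_num) (by decide +kernel))
  · exact absurd hp (nop (r := 13121) h (by norm_num) (by norm_num) (by norm_num) (by norm_num)
      (by decide +kernel))
  · exact absurd hp (nop (r := 255406609) h (by norm_num) (by norm_num) (by norm_num)
      (by norm_num) (by decide +kernel))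
  · rw [← Wn_spec] at h
    have : 3 * p + 2 = Wn 9 + 1 := by
      generalize Wn 9 = y at h ⊢
      omega
    rw [this] at hq
    exact absurd hq nine
  · exact absurd hq (noq (r := 8503057) h (by norm_num) (by norm_num) (by norm_num)
      (by decide +kernel))
  · exact absurd hp (nop (r := 1062881) h (by norm_num) (by norm_num) (by norm_num)
      (by norm_num) (by decide +kernel))
  · exact absurd hq (noq (r := 943839217) h (by norm_num) (by norm_num) (by norm_num)
      (by decide +kernel))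
  · exact absurd hq (noq (r := 602654093) h (by norm_num) (by norm_num) (by norm_num)
      (by decide +kernel))
  · exact absurd hp (nop (r := 573956281) h (by norm_num) (by norm_num) (by norm_num)
      (by norm_num) (by decide +kernel))
  · exact absurd hq (noq (r := 4048802390377) h (by norm_num) (by norm_num) (by norm_num)
      (by decide +kernel))
  · exact absurd hp (nop (r := 60695876609) h (by norm_num) (by norm_num) (by norm_num)
      (by norm_num) (by decide +kernel))
  · exact absurd hp (nop (r := 6973568801) h (by norm_num) (by norm_num) (by norm_num)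
      (by norm_num) (by decide +kernel))

theorem result (W : ℕ → ℤ) (hW0 : W 0 = 4) (hWs : ∀ a, W (a + 1) = W a ^ 3 - 3 * W a)
    (S : Set ℕ)
    (hS : S = {p : ℕ | p.Prime ∧ (3 * p + 2).Prime ∧
      ∃ x : ℕ, Odd x ∧ p * (3 * p + 2) = 4 * x ^ 2 + 1}) :
    (∀ p : ℕ, p ∈ S ↔
      p.Prime ∧ (3 * p + 2).Prime ∧ ∃ a : ℕ, 1 ≤ a ∧ 3 * (p : ℤ) + 1 = W a) ∧
    (∀ X : ℕ, {p ∈ S | p ≤ X}.ncard ≤ Nat.log 3 (Nat.log 3 (3 * X))) ∧
    (∀ p ∈ S, p = 17 ∨ p = 46817 ∨ 3 ^ 3 ^ 18 ≤ 3 * p) := by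
  have hW : W = Pool.Agent.P.MP_eb267f_nt.W := by
    funext a
    induction a with
    | zero => rw [hW0]; rfl
    | succ a ih => rw [hWs, ih]; rfl
  subst hW
  have key : ∀ p : ℕ, p ∈ S ↔ p.Prime ∧ (3 * p + 2).Prime ∧
      ∃ a : ℕ, 1 ≤ a ∧ 3 * (p : ℤ) + 1 = Pool.Agent.P.MP_eb267f_nt.W a := by
    intro p
    rw [hS]
    constructor
    · rintro ⟨hp, hq, x, -, hx⟩
      exact ⟨hp, hq, forward hp hq hx⟩
    · rintro ⟨hp, hq, a, -, ha⟩
      exact ⟨hp, hq, backward ha⟩
  refine ⟨key, ?_, ?_⟩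
  · intro X
    have hsub : {p ∈ S | p ≤ X} ⊆
        (fun a : ℕ => ((Pool.Agent.P.MP_eb267f_nt.W a - 1) / 3).toNat) ''
          (Finset.Icc 1 (Nat.log 3 (Nat.log 3 (3 * X))) : Finset ℕ) := by
      rintro p ⟨hp, hX⟩
      obtain ⟨-, -, a, ha, h⟩ := (key p).1 hp
      refine ⟨a, ?_, ?_⟩
      · simp only [Finset.coe_Icc, Set.mem_Icc]
        refine ⟨ha, ?_⟩
        have h1 := tower_le h
        apply Nat.le_log_of_pow_le (by norm_num)
        apply Nat.le_log_of_pow_le (by norm_num)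
        omega
      · simp only
        rw [← h]
        omega
    refine (Set.ncard_le_ncard hsub (Set.toFinite _)).trans ?_
    refine (Set.ncard_image_le (Set.toFinite _)).trans ?_
    rw [Set.ncard_coe_finset]
    simp
  · intro p hp
    obtain ⟨hp', hq, a, ha, h⟩ := (key p).1 hp
    rcases small hp' hq ha h with h1 | h1 | h1
    · exact Or.inl h1
    · exact Or.inr (Or.inl h1)
    · exact Or.inr (Or.inr ((tower_mono h1).trans (tower_le h)))

end Pool.Agent.Results.MP_eb267f_nt.CubicReduction
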